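import Mathlib

set_option autoImplicit false

/-!
# Eight points in a thin annulus

No eight points of the plane have norms in `[0.8452, 1.1548]` and mutual distances in
`[0.8452, 2.1548]`.
-/

namespace Pool.Agent.R549.KN

open Real

/-- doubling of lower bounds of the cosine -/
lemma cos_double {x c : ℝ} (hc : 0 ≤ c) (h : c ≤ cos (x / 2)) : 2 * c ^ 2 - 1 ≤ cos x := by
  have h1 : cos x = 2 * cos (x / 2) ^ 2 - 1 := by
    rw [← cos_two_mul]; congr 1; ring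
  rw [h1]
  nlinarith

lemma cos_a : (0.7326 : ℝ) ≤ cos 0.7475 := by
  have h0 : (0.982538 : ℝ) ≤ cos (0.7475 / 2 / 2) := by
    refine le_trans ?_ (one_sub_sq_div_two_le_cos (x := 0.7475 / 2 / 2))
    norm_num
  have h1 : (0.93076 : ℝ) ≤ cos (0.7475 / 2) :=
    le_trans (by norm_num) (cos_double (by norm_num) h0)
  exact le_trans (by norm_num) (cos_double (by norm_num) h1)

lemma cos_b : (0.7442 : ℝ) ≤ cos 0.7305 := by
  have h00 : (0.99583 : ℝ) ≤ cos (0.7305 / 2 / 2 / 2) := by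
    refine le_trans ?_ (one_sub_sq_div_two_le_cos (x := 0.7305 / 2 / 2 / 2))
    norm_num
  have h0 : (0.98335 : ℝ) ≤ cos (0.7305 / 2 / 2) :=
    le_trans (by norm_num) (cos_double (by norm_num) h00)
  have h1 : (0.93395 : ℝ) ≤ cos (0.7305 / 2) :=
    le_trans (by norm_num) (cos_double (by norm_num) h0)
  exact le_trans (by norm_num) (cos_double (by norm_num) h1)

lemma cos_c : (0.6628 : ℝ) ≤ cos 0.8455 := by
  have h00 : (0.994415 : ℝ) ≤ cos (0.8455 / 2 / 2 / 2) := by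
    refine le_trans ?_ (one_sub_sq_div_two_le_cos (x := 0.8455 / 2 / 2 / 2))
    norm_num
  have h0 : (0.97772 : ℝ) ≤ cos (0.8455 / 2 / 2) :=
    le_trans (by norm_num) (cos_double (by norm_num) h00)
  have h1 : (0.91187 : ℝ) ≤ cos (0.8455 / 2) :=
    le_trans (by norm_num) (cos_double (by norm_num) h0)
  exact le_trans (by norm_num) (cos_double (by norm_num) h1)

lemma gapA {r r' g : ℝ} (hr : 0.8452 ≤ r) (hrD : r ≤ 1.1548) (hr' : 0.8452 ≤ r')
    (hrD' : r' ≤ 1.1548) (hg : 0 ≤ g)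
    (h : 0.8452 ^ 2 ≤ r ^ 2 + r' ^ 2 - 2 * r * r' * cos g) : 0.7475 ≤ g := by
  by_contra hcon
  push Not at hcon
  have h1 : cos 0.7475 ≤ cos g :=
    cos_le_cos_of_nonneg_of_le_pi hg (by linarith [pi_gt_three]) hcon.le
  have h2 := cos_a
  have h3 : (0.7326 : ℝ) ≤ cos g := by linarith
  have hrr : 0 < r * r' := by positivity
  have h4 : 2 * (r * r') * 0.7326 ≤ 2 * (r * r') * cos g := by
    apply mul_le_mul_of_nonneg_left h3; positivity
  -- r² + r'² - 1.4652 r r' < 0.8452²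
  have h5 : r ^ 2 + r' ^ 2 - 1.4652 * (r * r') < 0.8452 ^ 2 := by
    rcases le_total r r' with hle | hle
    · have a1 : 0 ≤ (r - 0.8452) * (1.1548 - r) := mul_nonneg (by linarith) (by linarith)
      have a2 : 0 ≤ (r' - r) * (1.1548 - r') := mul_nonneg (by linarith) (by linarith)
      nlinarith
    · have a1 : 0 ≤ (r' - 0.8452) * (1.1548 - r') := mul_nonneg (by linarith) (by linarith)
      have a2 : 0 ≤ (r - r') * (1.1548 - r) := mul_nonneg (by linarith) (by linarith)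
      nlinarith
  nlinarith

lemma oppA {r r' β : ℝ} (hr : 0.8452 ≤ r) (hrD : r ≤ 1.1548) (hr' : 0.8452 ≤ r')
    (hrD' : r' ≤ 1.1548) (hβ1 : 4 * 0.7475 ≤ β) (hβ2 : β ≤ 2 * π - 4 * 0.7475)
    (h : r ^ 2 + r' ^ 2 - 2 * r * r' * cos β ≤ 2.1548 ^ 2) : r + r' ≤ 2.1622 := by
  have h1 : 1 - (β - π) ^ 2 / 2 ≤ cos (β - π) := one_sub_sq_div_two_le_cos
  rw [cos_sub_pi] at h1
  have hpi : π < 3.141593 := pi_lt_d6
  have hb : (β - π) ^ 2 ≤ 0.1516 ^ 2 := by
    apply sq_le_sq'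
    · linarith
    · linarith
  have h2 : 0.9885 ≤ - cos β := by nlinarith
  have hrr : 0 < r * r' := by positivity
  have h4 : 2 * (r * r') * 0.9885 ≤ 2 * (r * r') * (- cos β) := by
    apply mul_le_mul_of_nonneg_left h2; positivity
  have h5 : r * r' ≤ 1.1548 ^ 2 := by nlinarith
  have h6 : (r + r') ^ 2 ≤ 2.1622 ^ 2 := by nlinarith
  exact le_of_sq_le_sq h6 (by norm_num) 

/-- pushing the points outwards -/
lemma push {r r' c : ℝ} (hr : 0.8452 ≤ r) (hrD : r ≤ 1.1548) (hr' : 0.8452 ≤ r')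
    (hrD' : r' ≤ 1.1548) {s : ℝ} (hs : r ≤ s) (hsD : s ≤ 1.1548)
    (h : 0.8452 ^ 2 ≤ r ^ 2 + r' ^ 2 - 2 * r * r' * c) :
    0.8452 ^ 2 ≤ s ^ 2 + r' ^ 2 - 2 * s * r' * c := by
  have h1 : r' * c ≤ r := by
    have : 2 * r * (r' * c) ≤ 2 * r * r := by nlinarith
    exact le_of_mul_le_mul_left this (by linarith)
  have h2 : 0 ≤ (s - r) * (s + r - 2 * (r' * c)) := by
    apply mul_nonneg (by linarith) (by linarith)
  nlinarith

lemma chord {a : ℝ} (h0 : 0 ≤ a) (h1 : a ≤ 1) :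
    0.6628 + 0.0814 * a ≤ cos (0.8455 - 0.115 * a) := by
  have hc := strictConcaveOn_cos_Icc.concaveOn.2
    (show (0.7305 : ℝ) ∈ Set.Icc (-(π / 2)) (π / 2) by
      constructor <;> linarith [pi_gt_three])
    (show (0.8455 : ℝ) ∈ Set.Icc (-(π / 2)) (π / 2) by
      constructor <;> linarith [pi_gt_three]) h0 (sub_nonneg.2 h1) (by ring)
  simp only [smul_eq_mul] at hc
  have e : a * 0.7305 + (1 - a) * 0.8455 = 0.8455 - 0.115 * a := by ring
  rw [e] at hc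
  have c1 : a * 0.7442 ≤ a * cos 0.7305 := mul_le_mul_of_nonneg_left cos_b h0
  have c2 : (1 - a) * 0.6628 ≤ (1 - a) * cos 0.8455 :=
    mul_le_mul_of_nonneg_left cos_c (sub_nonneg.2 h1)
  linarith

lemma cubic {a s : ℝ} (h0 : 0 ≤ a) (h1 : a ≤ 1) (hs : s = 2.1622 + (0.115 * a - 0.0575) / 0.39) :
    (s ^ 2 + 0.1474 ^ 2) / 2 < (s ^ 2 - 0.1474 ^ 2) / 2 * (0.6628 + 0.0814 * a) + 0.8452 ^ 2 := by
  have h3 : 0 ≤ a ^ 3 := pow_nonneg h0 3
  have h2 : 0 ≤ (a - 534 / 1000) ^ 2 := sq_nonneg _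
  have e : s = 2.1622 - 0.0575 / 0.39 + (0.115 / 0.39) * a := by rw [hs]; ring
  rw [e]
  norm_num
  ring_nf
  linarith

/-- the main estimate: a lower bound for the angle -/
lemma ang {r r' g : ℝ} (hr : 1.0074 ≤ r) (hrD : r ≤ 1.1548) (hr' : 1.0074 ≤ r')
    (hrD' : r' ≤ 1.1548) (hg : 0 ≤ g)
    (h : 0.8452 ^ 2 ≤ r ^ 2 + r' ^ 2 - 2 * r * r' * cos g) :
    0.788 - 0.39 * (r + r' - 2.1622) ≤ g := by
  by_contra hcon
  push Not at hcon
  obtain ⟨s, hs⟩ : ∃ s, s = r + r' := ⟨_, rfl⟩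
  obtain ⟨v, hv⟩ : ∃ v, v = r - r' := ⟨_, rfl⟩
  have hs1 : 2.0148 ≤ s := by rw [hs]; linarith
  have hs2 : s ≤ 2.3096 := by rw [hs]; linarith
  obtain ⟨a, ha⟩ : ∃ a, s = 2.1622 + (0.115 * a - 0.0575) / 0.39 :=
    ⟨(0.39 * (s - 2.1622) + 0.0575) / 0.115, by ring⟩
  have ha0 : 0 ≤ a := by
    by_contra hn; push Not at hn
    have : (0.115 * a - 0.0575) / 0.39 = (0.115 / 0.39) * a - 0.0575 / 0.39 := by ring
    rw [this] at ha
    norm_num at ha hs1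
    nlinarith
  have ha1 : a ≤ 1 := by
    by_contra hn; push Not at hn
    have : (0.115 * a - 0.0575) / 0.39 = (0.115 / 0.39) * a - 0.0575 / 0.39 := by ring
    rw [this] at ha
    norm_num at ha hs2
    nlinarith
  have hy : 0.788 - 0.39 * (r + r' - 2.1622) = 0.8455 - 0.115 * a := by
    rw [← hs, ha]; ring
  rw [hy] at hcon
  have h1 : cos (0.8455 - 0.115 * a) ≤ cos g :=
    cos_le_cos_of_nonneg_of_le_pi hg (by linarith [pi_gt_three]) hcon.le
  have h3 : 0.6628 + 0.0814 * a ≤ cos g := (chord ha0 ha1).trans h1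
  have hv1 : v ^ 2 ≤ 0.1474 ^ 2 := by
    rw [hv]; apply sq_le_sq' <;> linarith
  have e1 : r * r' = (s ^ 2 - v ^ 2) / 4 := by rw [hs, hv]; ring
  have e2 : r ^ 2 + r' ^ 2 = (s ^ 2 + v ^ 2) / 2 := by rw [hs, hv]; ring
  have hrr : 0 < r * r' := by positivity
  have h4 : 2 * (r * r') * (0.6628 + 0.0814 * a) ≤ 2 * (r * r') * cos g := by
    apply mul_le_mul_of_nonneg_left h3; positivity
  have h5 : (s ^ 2 - v ^ 2) / 2 * (0.6628 + 0.0814 * a) + 0.8452 ^ 2 ≤ (s ^ 2 + v ^ 2) / 2 := by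
    rw [← e2]
    have : (s ^ 2 - v ^ 2) / 2 * (0.6628 + 0.0814 * a) = 2 * (r * r') * (0.6628 + 0.0814 * a) := by
      rw [e1]; ring
    rw [this]
    nlinarith
  have h6 := cubic ha0 ha1 ha
  have h7 : (v ^ 2 - 0.1474 ^ 2) * (0.6628 + 0.0814 * a) ≤ 0 := by
    apply mul_nonpos_of_nonpos_of_nonneg <;> linarith
  nlinarith

end Pool.Agent.R549.KN
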