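import Pool.Agent.R549.KN.Ang

set_option autoImplicit false

namespace Pool.Agent.R549.KN

open Real

lemma gapB {r r' g : ℝ} (hr : 0.8452 ≤ r) (hrD : r ≤ 1.1548) (hr' : 0.8452 ≤ r')
    (hrD' : r' ≤ 1.1548) (hg : 0 ≤ g)
    (h : 0.8452 ^ 2 ≤ r ^ 2 + r' ^ 2 - 2 * r * r' * cos g) :
    0.788 - 0.39 * (max r 1.0074 + max r' 1.0074 - 2.1622) ≤ g := by
  have h1 := push hr hrD hr' hrD' (le_max_left r 1.0074) (max_le hrD (by norm_num)) h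
  have h1' : 0.8452 ^ 2 ≤ r' ^ 2 + (max r 1.0074) ^ 2 - 2 * r' * (max r 1.0074) * cos g := by
    linarith
  have h2 := push hr' hrD' (hr.trans (le_max_left r 1.0074)) (max_le hrD (by norm_num))
    (le_max_left r' 1.0074) (max_le hrD' (by norm_num)) h1'
  have h2' : 0.8452 ^ 2 ≤ (max r 1.0074) ^ 2 + (max r' 1.0074) ^ 2 -
      2 * (max r 1.0074) * (max r' 1.0074) * cos g := by
    linarith
  exact ang (le_max_right _ _) (max_le hrD (by norm_num)) (le_max_right _ _)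
    (max_le hrD' (by norm_num)) hg h2'

lemma maxsum {r r' : ℝ} (hrD : r ≤ 1.1548) (hrD' : r' ≤ 1.1548) (h : r + r' ≤ 2.1622) :
    max r 1.0074 + max r' 1.0074 ≤ 2.1622 := by
  rcases max_cases r 1.0074 with ⟨e, -⟩ | ⟨e, -⟩ <;> rcases max_cases r' 1.0074 with ⟨e', -⟩ | ⟨e', -⟩ <;>
    rw [e, e'] <;> linarith

theorem core (ρ t : Fin 8 → ℝ) (hmono : Monotone t) (h8 : t 7 ≤ t 0 + 2 * π)
    (hρ1 : ∀ i, 0.8452 ≤ ρ i) (hρ2 : ∀ i, ρ i ≤ 1.1548)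
    (hmin : ∀ i j, i ≠ j → 0.8452 ^ 2 ≤ ρ i ^ 2 + ρ j ^ 2 - 2 * ρ i * ρ j * cos (t j - t i))
    (hmax : ∀ i j, ρ i ^ 2 + ρ j ^ 2 - 2 * ρ i * ρ j * cos (t j - t i) ≤ 2.1548 ^ 2) : False := by
  have g (i j : Fin 8) (hij : i < j) : 0 ≤ t j - t i := sub_nonneg.2 (hmono hij.le)
  -- the gaps
  have a0 := gapA (hρ1 0) (hρ2 0) (hρ1 1) (hρ2 1) (g 0 1 (by decide)) (hmin 0 1 (by decide))
  have a1 := gapA (hρ1 1) (hρ2 1) (hρ1 2) (hρ2 2) (g 1 2 (by decide)) (hmin 1 2 (by decide))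
  have a2 := gapA (hρ1 2) (hρ2 2) (hρ1 3) (hρ2 3) (g 2 3 (by decide)) (hmin 2 3 (by decide))
  have a3 := gapA (hρ1 3) (hρ2 3) (hρ1 4) (hρ2 4) (g 3 4 (by decide)) (hmin 3 4 (by decide))
  have a4 := gapA (hρ1 4) (hρ2 4) (hρ1 5) (hρ2 5) (g 4 5 (by decide)) (hmin 4 5 (by decide))
  have a5 := gapA (hρ1 5) (hρ2 5) (hρ1 6) (hρ2 6) (g 5 6 (by decide)) (hmin 5 6 (by decide))
  have a6 := gapA (hρ1 6) (hρ2 6) (hρ1 7) (hρ2 7) (g 6 7 (by decide)) (hmin 6 7 (by decide))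
  have hc7 : cos (2 * π - (t 7 - t 0)) = cos (t 7 - t 0) := cos_two_pi_sub _
  have m7 : 0.8452 ^ 2 ≤ ρ 0 ^ 2 + ρ 7 ^ 2 - 2 * ρ 0 * ρ 7 * cos (2 * π - (t 7 - t 0)) := by
    rw [hc7]; exact hmin 0 7 (by decide)
  have g7 : 0 ≤ 2 * π - (t 7 - t 0) := by linarith
  have a7 := gapA (hρ1 0) (hρ2 0) (hρ1 7) (hρ2 7) g7 m7
  -- opposite points
  have o0 := oppA (β := t 4 - t 0) (hρ1 0) (hρ2 0) (hρ1 4) (hρ2 4) (by linarith) (by linarith)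
    (hmax 0 4)
  have o1 := oppA (β := t 5 - t 1) (hρ1 1) (hρ2 1) (hρ1 5) (hρ2 5) (by linarith) (by linarith)
    (hmax 1 5)
  have o2 := oppA (β := t 6 - t 2) (hρ1 2) (hρ2 2) (hρ1 6) (hρ2 6) (by linarith) (by linarith)
    (hmax 2 6)
  have o3 := oppA (β := t 7 - t 3) (hρ1 3) (hρ2 3) (hρ1 7) (hρ2 7) (by linarith) (by linarith)
    (hmax 3 7)
  have s0 := maxsum (hρ2 0) (hρ2 4) o0
  have s1 := maxsum (hρ2 1) (hρ2 5) o1
  have s2 := maxsum (hρ2 2) (hρ2 6) o2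
  have s3 := maxsum (hρ2 3) (hρ2 7) o3
  -- the refined gaps
  have b0 := gapB (hρ1 0) (hρ2 0) (hρ1 1) (hρ2 1) (g 0 1 (by decide)) (hmin 0 1 (by decide))
  have b1 := gapB (hρ1 1) (hρ2 1) (hρ1 2) (hρ2 2) (g 1 2 (by decide)) (hmin 1 2 (by decide))
  have b2 := gapB (hρ1 2) (hρ2 2) (hρ1 3) (hρ2 3) (g 2 3 (by decide)) (hmin 2 3 (by decide))
  have b3 := gapB (hρ1 3) (hρ2 3) (hρ1 4) (hρ2 4) (g 3 4 (by decide)) (hmin 3 4 (by decide))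
  have b4 := gapB (hρ1 4) (hρ2 4) (hρ1 5) (hρ2 5) (g 4 5 (by decide)) (hmin 4 5 (by decide))
  have b5 := gapB (hρ1 5) (hρ2 5) (hρ1 6) (hρ2 6) (g 5 6 (by decide)) (hmin 5 6 (by decide))
  have b6 := gapB (hρ1 6) (hρ2 6) (hρ1 7) (hρ2 7) (g 6 7 (by decide)) (hmin 6 7 (by decide))
  have b7 := gapB (hρ1 0) (hρ2 0) (hρ1 7) (hρ2 7) g7 m7
  have hpi : π < 3.141593 := pi_lt_d6
  linarith

/-- The cosine rule for complex numbers. -/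
lemma norm_sub_sq_arg (z w : ℂ) :
    ‖z - w‖ ^ 2 = ‖z‖ ^ 2 + ‖w‖ ^ 2 - 2 * ‖z‖ * ‖w‖ * cos (w.arg - z.arg) := by
  have h1 : ‖z - w‖ ^ 2 = (z.re - w.re) ^ 2 + (z.im - w.im) ^ 2 := by
    rw [← Complex.normSq_eq_norm_sq, Complex.normSq_apply]
    simp only [Complex.sub_re, Complex.sub_im]; ring
  have h2 := Complex.norm_mul_cos_arg z
  have h3 := Complex.norm_mul_sin_arg z
  have h4 := Complex.norm_mul_cos_arg w
  have h5 := Complex.norm_mul_sin_arg w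
  rw [h1, cos_sub, ← h2, ← h3, ← h4, ← h5]
  have e1 := Real.sin_sq_add_cos_sq z.arg
  have e2 := Real.sin_sq_add_cos_sq w.arg
  linear_combination (‖z‖ ^ 2) * e1 + (‖w‖ ^ 2) * e2

/-- No eight points in the annulus. -/
theorem no_eight (z : Fin 8 → ℂ) (h1 : ∀ i, 0.8452 ≤ ‖z i‖) (h2 : ∀ i, ‖z i‖ ≤ 1.1548)
    (h3 : ∀ i j, i ≠ j → 0.8452 ≤ ‖z i - z j‖) (h4 : ∀ i j, ‖z i - z j‖ ≤ 2.1548) : False := by
  set θ : Fin 8 → ℝ := fun i => (z i).arg with hθ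
  set σ := Tuple.sort θ with hσ
  have hm : Monotone (θ ∘ σ) := Tuple.monotone_sort θ
  refine core (fun i => ‖z (σ i)‖) (θ ∘ σ) hm ?_ (fun i => h1 _) (fun i => h2 _) ?_ ?_
  · have a1 := Complex.arg_le_pi (z (σ 7))
    have a2 := Complex.neg_pi_lt_arg (z (σ 0))
    simp only [Function.comp, hθ]
    linarith
  · intro i j hij
    have := h3 (σ i) (σ j) (fun h => hij (σ.injective h))
    simp only [Function.comp, hθ]
    rw [← norm_sub_sq_arg]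
    exact pow_le_pow_left₀ (by norm_num) this 2
  · intro i j
    have := h4 (σ i) (σ j)
    simp only [Function.comp, hθ]
    rw [← norm_sub_sq_arg]
    exact pow_le_pow_left₀ (norm_nonneg _) this 2

end Pool.Agent.R549.KN
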