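import Pool.Agent.R549.KN.Core
import Pool.Agent.TH870.CWb

set_option autoImplicit false

namespace Pool.Agent.R549.KN

open Real Set Pool.Agent.TH870.CW


abbrev E2 := EuclideanSpace ℝ (Fin 2)

lemma far_of_disjoint {A B : Set E2} {a b : E2} {r : ℝ}
    (hA : ∀ p, dist p a ≤ r → p ∈ A) (hB : ∀ p, dist p b ≤ r → p ∈ B)
    (h : interior A ∩ interior B = ∅) : 2 * r ≤ dist a b := by
  by_contra hcon
  push Not at hcon
  have hd1 : dist (midpoint ℝ a b) a < r := by
    rw [dist_midpoint_left]; norm_num; linarith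
  have hd2 : dist (midpoint ℝ a b) b < r := by
    rw [dist_midpoint_right]; norm_num; linarith
  have h1 : midpoint ℝ a b ∈ interior A := by
    rw [mem_interior]
    exact ⟨Metric.ball a r, fun p hp => hA p (le_of_lt hp), Metric.isOpen_ball, hd1⟩
  have h2 : midpoint ℝ a b ∈ interior B := by
    rw [mem_interior]
    exact ⟨Metric.ball b r, fun p hp => hB p (le_of_lt hp), Metric.isOpen_ball, hd2⟩
  have : midpoint ℝ a b ∈ interior A ∩ interior B := ⟨h1, h2⟩
  rw [h] at this
  exact this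

lemma jr_two : Real.sqrt ((2 : ℕ) / (2 * ((2 : ℕ) + 1))) ≤ 0.5774 := by
  rw [Real.sqrt_le_left (by norm_num)]
  norm_num

theorem no_eight_copies {K : Set E2} (hconv : Convex ℝ K) (hcomp : IsCompact K)
    (hne : K.Nonempty) {w : ℝ} (hw : 0 < w) (hcw : ConstantWidth K w)
    (f : Fin 8 → (E2 ≃ᵢ E2)) (h1 : ∀ i, ((f i) '' K ∩ K).Nonempty)
    (h2 : ∀ i, interior ((f i) '' K) ∩ interior K = ∅)
    (h3 : ∀ i j, i ≠ j → interior ((f i) '' K) ∩ interior ((f j) '' K) = ∅) : False := by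
  obtain ⟨c, hc⟩ := jung hw.le (diam_le hcomp hw.le hcw)
  have hc' : ∀ x ∈ K, dist x c ≤ 0.5774 * w := by
    intro x hx
    have := hc x hx
    have h0 := mul_le_mul_of_nonneg_left jr_two hw.le
    linarith
  have hb : ∀ p, dist p c ≤ 0.4226 * w → p ∈ K := by
    intro p hp
    exact ball_sub hcomp hconv hne hcw hc' p (by linarith)
  have hdiam := diam_le hcomp hw.le hcw
  -- the copies
  have hci : ∀ i, ∀ x ∈ (f i) '' K, dist x (f i c) ≤ 0.5774 * w := by
    rintro i _ ⟨x, hx, rfl⟩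
    rw [(f i).dist_eq]
    exact hc' x hx
  have hbi : ∀ i, ∀ p, dist p (f i c) ≤ 0.4226 * w → p ∈ (f i) '' K := by
    intro i p hp
    refine ⟨(f i).symm p, hb _ ?_, (f i).apply_symm_apply p⟩
    rw [← (f i).dist_eq, (f i).apply_symm_apply]
    exact hp
  have hmin : ∀ i j, i ≠ j → 2 * (0.4226 * w) ≤ dist (f i c) (f j c) := fun i j hij =>
    far_of_disjoint (hbi i) (hbi j) (h3 i j hij)
  have hmin0 : ∀ i, 2 * (0.4226 * w) ≤ dist (f i c) c := fun i =>
    far_of_disjoint (hbi i) hb (h2 i)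
  choose p hp using h1
  have hmax0 : ∀ i, dist (f i c) c ≤ 2 * (0.5774 * w) := by
    intro i
    have a1 := hci i (p i) (hp i).1
    have a2 := hc' (p i) (hp i).2
    have a3 := dist_triangle (f i c) (p i) c
    rw [dist_comm (f i c) (p i)] at a3
    linarith
  have hmax : ∀ i j, dist (f i c) (f j c) ≤ w + 2 * (0.5774 * w) := by
    intro i j
    have a1 := hci i (p i) (hp i).1
    have a2 := hci j (p j) (hp j).1
    have a3 := hdiam (p i) (hp i).2 (p j) (hp j).2
    have a4 := dist_triangle4 (f i c) (p i) (p j) (f j c)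
    rw [dist_comm (f i c) (p i)] at a4
    linarith
  -- complex coordinates
  set e := Complex.orthonormalBasisOneI.repr.symm with he
  have key : ∀ x y : E2, ‖(w⁻¹ : ℝ) • e (x - c) - (w⁻¹ : ℝ) • e (y - c)‖ = w⁻¹ * dist x y := by
    intro x y
    rw [← smul_sub, ← map_sub, norm_smul, Real.norm_eq_abs, abs_of_pos (inv_pos.2 hw),
      LinearIsometryEquiv.norm_map, dist_eq_norm]
    congr 2; abel
  have key0 : ∀ x : E2, ‖(w⁻¹ : ℝ) • e (x - c)‖ = w⁻¹ * dist x c := by
    intro x
    rw [norm_smul, Real.norm_eq_abs, abs_of_pos (inv_pos.2 hw),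
      LinearIsometryEquiv.norm_map, dist_eq_norm]
  refine no_eight (fun i => (w⁻¹ : ℝ) • e (f i c - c)) ?_ ?_ ?_ ?_
  · intro i
    rw [key0, le_inv_mul_iff₀ hw]
    have := hmin0 i
    linarith
  · intro i
    rw [key0, inv_mul_le_iff₀ hw]
    have := hmax0 i
    linarith
  · intro i j hij
    rw [key, le_inv_mul_iff₀ hw]
    have := hmin i j hij
    linarith
  · intro i j
    rw [key, inv_mul_le_iff₀ hw]
    have := hmax i j
    linarith

end Pool.Agent.R549.KN
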